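import Pool.Agent.N39.RW.Pages

set_option autoImplicit false

/-!
# Four, and all five, of the consecutive odd numbers `n, n + 2, n + 4, n + 6, n + 8`

The four numbers `n, n + 2, n + 6, n + 8`: any one prime, any other one a product of two primes, the other two almost
prime. The five numbers: the same, and in addition `n + 4` is 15 times an almost prime (if the other four have no
prime factor at most 5, then `n + 4` is divisible by 15). The correct order of magnitude in all windows around a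
positive proportion of the integers, between consecutive powers, and for pairs at a positive proportion of the distances.
-/

namespace Pool.Agent.Results.MP_fc51f7_nt.ChenTypeQuintuplets

open Filter

/-- `n, n + 2, n + 6, n + 8` -/
def four (l : Fin 4) (n : ℕ) : ℕ := n + ![0, 2, 6, 8] l

/-- with `n = 30 t + 11`: the numbers `n, n + 2, n + 6, n + 8` and `(n + 4) / 15` -/
def five (l : Fin 5) (t : ℕ) : ℕ := ![30, 30, 30, 30, 2] l * t + ![11, 13, 17, 19, 1] l

/-- member `i` is prime, member `j` is a product of at most two primes, and all members are products of at most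
`r` primes, all larger than `z` -/
def Good {k : ℕ} (F : Fin k → ℕ → ℕ) (i j : Fin k) (r : ℕ) (z : ℝ) (n : ℕ) : Prop :=
  (F i n).Prime ∧ (F j n).primeFactorsList.length ≤ 2 ∧
    ∀ l, (F l n).primeFactorsList.length ≤ r ∧ ∀ q : ℕ, q.Prime → q ∣ F l n → z < (q : ℝ)

/-- all prime factors of all members are larger than `z` -/
def Sieved {k : ℕ} (F : Fin k → ℕ → ℕ) (z : ℝ) (n : ℕ) : Prop :=
  ∀ l, ∀ q : ℕ, q.Prime → q ∣ F l n → z < (q : ℝ)

/-- `t` is regular: in ALL windows `(u, v]` with `u ≤ t ≤ v` and `K (log t) ^ k ≤ v - u ≤ t` there are at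
least `c₁ (v - u) / (log t) ^ k` good `n`, and at most `c₂ (v - u) / (log t) ^ k` sieved `n`. -/
def Regular {k : ℕ} (F : Fin k → ℕ → ℕ) (i j : Fin k) (r : ℕ) (c₁ c₂ K : ℝ) (t : ℕ) : Prop :=
  ∀ u v : ℕ, u ≤ t → t ≤ v → K * Real.log t ^ k ≤ (v : ℝ) - u → (v : ℝ) - u ≤ t →
    c₁ * ((v : ℝ) - u) / Real.log t ^ k ≤
      ({n : ℕ | u < n ∧ n ≤ v ∧ Good F i j r ((t : ℝ) ^ (1 / (r : ℝ))) n}.ncard : ℝ) ∧
    ({n : ℕ | u < n ∧ n ≤ v ∧ Sieved F ((t : ℝ) ^ (1 / (r : ℝ))) n}.ncard : ℝ) ≤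
      c₂ * ((v : ℝ) - u) / Real.log t ^ k

/-- the conclusion: windows, intervals between consecutive powers, distances -/
def Conclusion {k : ℕ} (F : Fin k → ℕ → ℕ) (i j : Fin k) : Prop :=
  ∃ r : ℕ, 1 ≤ r ∧
    (∃ c₁ c₂ K : ℝ, 0 < c₁ ∧ 0 < c₂ ∧ 0 < K ∧
      (∃ μ : ℝ, 0 < μ ∧ ∀ᶠ x : ℕ in atTop,
        μ * x ≤ ({t : ℕ | t ≤ x ∧ Regular F i j r c₁ c₂ K t}.ncard : ℝ)) ∧
      ∀ e : ℕ, 2 ≤ e → ∃ ν : ℝ, 0 < ν ∧ ∀ᶠ N : ℕ in atTop, ν * N ≤
        ({m : ℕ | N ≤ m ∧ m < 2 * N ∧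
          ν * (m : ℝ) ^ (e - 1) ≤
            ({t : ℕ | m ^ e < t ∧ t < (m + 1) ^ e ∧ Regular F i j r c₁ c₂ K t}.ncard : ℝ) ∧
          ν * (m : ℝ) ^ (e - 1) / Real.log m ^ k ≤
            ({n : ℕ | m ^ e < n ∧ n < (m + 1) ^ e ∧
              Good F i j r ((m : ℝ) ^ ((e : ℝ) / r)) n}.ncard : ℝ)}.ncard : ℝ)) ∧
    ∃ c C K : ℝ, 0 < c ∧ 0 < C ∧ 0 < K ∧ ∀ᶠ X : ℕ in atTop,
      ∀ H : ℕ, K * Real.log X ^ k ≤ H → H ≤ X →
      c * H ≤ ({d : ℕ | 1 ≤ d ∧ d ≤ H ∧
        c * X / Real.log X ^ (2 * k) ≤ ({n : ℕ | X < n ∧ n + d ≤ 2 * X ∧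
          Good F i j r ((X : ℝ) ^ (1 / (r : ℝ))) n ∧ Good F i j r ((X : ℝ) ^ (1 / (r : ℝ))) (n + d)}.ncard : ℝ) ∧
        ({n : ℕ | X < n ∧ n + d ≤ 2 * X ∧
          Sieved F ((X : ℝ) ^ (1 / (r : ℝ))) n ∧ Sieved F ((X : ℝ) ^ (1 / (r : ℝ))) (n + d)}.ncard : ℝ) ≤
            C * X / Real.log X ^ (2 * k)}.ncard : ℝ)

theorem concl {k : ℕ} (a : Fin k → ℕ) (b : Fin k → ℤ) (ha : ∀ l, 0 < a l)
    (hinj : ∀ l l', a l = a l' → b l = b l' → l = l')
    (hadm : ∀ p : ℕ, p.Prime → ∃ m : ℕ, ∀ l, ¬ (p : ℤ) ∣ (a l : ℤ) * m + b l)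
    (F : Fin k → ℕ → ℕ) (hF : ∀ l n, 1 ≤ n → ((F l n : ℕ) : ℤ) = (a l : ℤ) * n + b l)
    (i j : Fin k) (hij : i ≠ j) : Conclusion F i j := by
  obtain ⟨r, hr, H⟩ := Pool.Agent.N39.RW.pageL a b ha hinj hadm F hF i j hij
  obtain ⟨⟨c₁, c₂, K, hc₁, hc₂, hK, huse⟩, c, C, K', hc, hC, hK', hd⟩ := H i j (Or.inl ⟨rfl, rfl⟩)
  refine ⟨r, hr, ⟨c₁, c₂, K, hc₁, hc₂, hK, ?_⟩, c, C, K', hc, hC, hK', ?_⟩
  · exact huse (Regular F i j r c₁ c₂ K) (fun t ht => ht)
  · exact hd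

theorem ndvd {p q : ℕ} (hp : p.Prime) (hq : q.Prime) (h : p ≠ q) : ¬ (p : ℤ) ∣ (q : ℤ) := by
  rw [Int.natCast_dvd_natCast, Nat.prime_dvd_prime_iff_eq hp hq]
  exact h

theorem result : (∀ i j : Fin 4, i ≠ j → Conclusion four i j) ∧ (∀ i j : Fin 5, i ≠ j → Conclusion five i j) := by
  constructor
  · intro i j hij
    apply concl (fun _ => 1) (![0, 2, 6, 8] : Fin 4 → ℤ) (fun _ => Nat.one_pos) _ _ _ _ i j hij
    · intro l l' _ h
      fin_cases l <;> fin_cases l' <;> simp at h <;> rfl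
    · intro p hp
      by_cases h : p = 11 ∨ p = 13 ∨ p = 17 ∨ p = 19
      · refine ⟨101, ?_⟩
        rcases h with rfl | rfl | rfl | rfl <;> decide
      · push Not at h
        refine ⟨11, fun l => ?_⟩
        fin_cases l
        · have h1 := ndvd hp (by norm_num : Nat.Prime 11) h.1
          norm_num at h1 ⊢
          exact h1
        · have h1 := ndvd hp (by norm_num : Nat.Prime 13) h.2.1
          norm_num at h1 ⊢
          exact h1
        · have h1 := ndvd hp (by norm_num : Nat.Prime 17) h.2.2.1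
          norm_num at h1 ⊢
          exact h1
        · have h1 := ndvd hp (by norm_num : Nat.Prime 19) h.2.2.2
          norm_num at h1 ⊢
          exact h1
    · intro l n _
      unfold four
      fin_cases l <;> simp
  · intro i j hij
    apply concl (![30, 30, 30, 30, 2] : Fin 5 → ℕ) (![11, 13, 17, 19, 1] : Fin 5 → ℤ) _ _ _ _ _ i j hij
    · intro l
      fin_cases l <;> simp
    · intro l l' _ h
      fin_cases l <;> fin_cases l' <;> simp at h <;> rfl
    · intro p hp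
      by_cases h : p = 11 ∨ p = 13 ∨ p = 17 ∨ p = 19
      · refine ⟨1, ?_⟩
        rcases h with rfl | rfl | rfl | rfl <;> decide
      · push Not at h
        refine ⟨0, fun l => ?_⟩
        fin_cases l
        · simpa using ndvd hp (by norm_num : Nat.Prime 11) h.1
        · simpa using ndvd hp (by norm_num : Nat.Prime 13) h.2.1
        · simpa using ndvd hp (by norm_num : Nat.Prime 17) h.2.2.1
        · simpa using ndvd hp (by norm_num : Nat.Prime 19) h.2.2.2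
        · intro h1
          have h2 : (p : ℤ) ∣ 1 := by simpa using h1
          have h3 : p ∣ 1 := by exact_mod_cast h2
          exact hp.one_lt.ne' (Nat.dvd_one.1 h3)
    · intro l n _
      unfold five
      fin_cases l <;> simp

end Pool.Agent.Results.MP_fc51f7_nt.ChenTypeQuintuplets
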