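import Pool.Agent.N220.CF.Q2

/-!
# Four primes among five numbers, with shifts near linear forms in good approximations of almost every point of the plane

For almost every point `α` of the plane, all invertible integral matrices `M` of size `3`, all integral vectors `c` and all but
finitely many integral vectors `(q, p_1, p_2)`, `q ≥ 1`, with `|q α_i - p_i| ≤ b q^(-1/2)` for `i = 1, 2`, EVERY integral vector `d`
at a distance of at most `log ^ W q` (in each coordinate) from `M (q, p_1, p_2) + c` has the property: if `{0, d_0, d_1, d_2}` is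
admissible, then the numbers `n, n + d_0, n + d_1, n + d_2` are all prime for the expected number of `n` in all windows of length
at least `q / log ^ A q` up to `B q`; in particular, for every integer `e`, in each such window there are at least (almost) that
many `n` such that at least four of the five numbers `n, n + d_0, n + d_1, n + d_2, n + e` are prime.
-/

set_option autoImplicit false

namespace Pool.Agent.Results.MP_fc51f7_nt.ConvergentQuadruples

open Finset Filter MeasureTheory Topology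
open Pool.Agent.N220.CF (Near vec Admissible HL count eulerProd systems_fixed)

/-- The number of the `n` with `y₁ < n ≤ y₂` such that at least four of the five numbers `n + s 0`, ..., `n + s 4` are prime up to
sign. -/
def fourOfFive (s : Fin 5 → ℤ) (y₁ y₂ : ℕ) : ℕ :=
  ((Ioc y₁ y₂).filter (fun n : ℕ => 4 ≤ (univ.filter (fun i : Fin 5 => ((n : ℤ) + s i).natAbs.Prime)).card)).card

/-- For all admissible quadruples `0, d 0, d 1, d 2` with `d i` at a distance of at most `log ^ W q` from the `i`-th coordinate of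
`M (q, p_1, p_2) + c` the singular series converges to a number `S > 0`, and for all `y₁ ≤ y₂ ≤ B q` with
`y₂ - y₁ ≥ q / log ^ A q` the number of the `n` with `y₁ < n ≤ y₂` for which `n`, `|n + d 0|`, `|n + d 1|`, `|n + d 2|` are primes is
`S (y₂ - y₁) / log ^ 4 q` up to a relative error of at most `ε`, and for every integer `e` at least four of the five numbers `n`,
`n + d 0`, `n + d 1`, `n + d 2`, `n + e` are prime up to sign for at least `(1 - ε) S (y₂ - y₁) / log ^ 4 q` of these `n`. Here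
`t = (p, q)`. -/
def Law (M : Matrix (Fin 3) (Fin 3) ℤ) (c : Fin 3 → ℤ) (A B W : ℕ) (ε : ℝ) (t : (Fin 2 → ℤ) × ℕ) : Prop :=
  ∀ d : Fin 3 → ℤ, (∀ i, |(d i : ℝ) - (((M.mulVec (vec t) i + c i : ℤ)) : ℝ)| ≤ Real.log t.2 ^ W) →
    Admissible (fun _ : Fin 4 => 1) ![0, d 0, d 1, d 2] →
      ∃ S : ℝ, 0 < S ∧ Tendsto (eulerProd (fun _ : Fin 4 => 1) ![0, d 0, d 1, d 2]) atTop (𝓝 S) ∧
        ∀ y₁ y₂ : ℕ, y₁ ≤ y₂ → y₂ ≤ B * t.2 → (t.2 : ℝ) / Real.log t.2 ^ A ≤ (y₂ : ℝ) - y₁ →
          |(count (fun _ : Fin 4 => 1) ![0, d 0, d 1, d 2] y₁ y₂ : ℝ) - S * ((y₂ : ℝ) - y₁) / Real.log t.2 ^ 4| ≤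
            ε * (S * ((y₂ : ℝ) - y₁) / Real.log t.2 ^ 4) ∧
          ∀ e : ℤ, (1 - ε) * (S * ((y₂ : ℝ) - y₁) / Real.log t.2 ^ 4) ≤ fourOfFive ![0, d 0, d 1, d 2, e] y₁ y₂

lemma count_le (d : Fin 3 → ℤ) (e : ℤ) (y₁ y₂ : ℕ) :
    count (fun _ : Fin 4 => 1) ![0, d 0, d 1, d 2] y₁ y₂ ≤ fourOfFive ![0, d 0, d 1, d 2, e] y₁ y₂ := by
  unfold count fourOfFive
  apply card_le_card
  intro n hn
  rw [mem_filter] at hn ⊢
  refine ⟨hn.1, ?_⟩
  have h0 := hn.2 0
  have h1 := hn.2 1
  have h2 := hn.2 2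
  have h3 := hn.2 3
  have hs : ({0, 1, 2, 3} : Finset (Fin 5)) ⊆ univ.filter (fun i : Fin 5 => ((n : ℤ) + ![0, d 0, d 1, d 2, e] i).natAbs.Prime) := by
    intro i hi
    rw [mem_filter]
    refine ⟨mem_univ _, ?_⟩
    simp only [mem_insert, mem_singleton] at hi
    rcases hi with rfl | rfl | rfl | rfl
    · rw [one_mul] at h0
      exact h0
    · rw [one_mul] at h1
      exact h1
    · rw [one_mul] at h2
      exact h2
    · rw [one_mul] at h3
      exact h3
  exact le_trans (by decide) (card_le_card hs)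

/-- **Four primes among five numbers.** -/
theorem result : ∀ᵐ α : Fin 2 → ℝ, ∀ (M : Matrix (Fin 3) (Fin 3) ℤ) (c : Fin 3 → ℤ) (A B W : ℕ) (ε : ℝ), M.det ≠ 0 → 0 < ε →
    ∀ b : ℝ, {t | Near b (1 / (2 : ℕ)) α t ∧ ¬ Law M c A B W ε t}.Finite := by
  have e : (Fin.cons 1 (fun _ : Fin 3 => (1 : ℤ)) : Fin 4 → ℤ) = fun _ => 1 := by
    funext i
    refine Fin.cases rfl (fun i => ?_) i
    rw [Fin.cons_succ]
  have e' : ∀ d : Fin 3 → ℤ, (Fin.cons 0 d : Fin 4 → ℤ) = ![0, d 0, d 1, d 2] := by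
    intro d
    funext i
    fin_cases i <;> rfl
  filter_upwards [systems_fixed 2 (by norm_num)] with α hα M c A B W ε hM he b
  refine (hα (fun _ => 1) M c A B W ε hM he b).subset fun t ht => ⟨ht.1, fun h => ht.2 fun d hd hadm => ?_⟩
  have h1 := h d hd
  rw [e, e'] at h1
  obtain ⟨S, hS0, hSt, hS⟩ := h1 hadm
  refine ⟨S, hS0, hSt, fun y₁ y₂ h2 h3 h4 => ?_⟩
  have h5 := hS y₁ y₂ h2 h3 h4
  refine ⟨h5, fun x => ?_⟩
  have h6 : (count (fun _ : Fin 4 => 1) ![0, d 0, d 1, d 2] y₁ y₂ : ℝ) ≤ fourOfFive ![0, d 0, d 1, d 2, x] y₁ y₂ := by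
    exact_mod_cast count_le d x y₁ y₂
  have h7 := (abs_le.1 h5).1
  linarith

end Pool.Agent.Results.MP_fc51f7_nt.ConvergentQuadruples
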