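import Mathlib
import Pool.Agent.N315.PS.Use

/-!
# The Poisson law and the law of the gaps for all systems of polynomials in all sieved sequential models

The integers are decided one after the other; the multiples of the primes of a finite set `Q` are never chosen and
the conditional probability of choosing an integer `n + 1` which is not such a multiple, given the decisions up to
`n`, is asymptotic to `∏_{p ∈ Q} (1 - 1 / p)⁻¹ / log n`, almost surely.  Nothing else is assumed: no independence and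
no rate of convergence.  For `Q = ∅` the independent model of Cramér and the random sieve of Hawkins are examples.

Almost surely, for ALL finite systems `P` of integer polynomials of positive degree and positive leading coefficient
without a fixed divisor in `Q`, the set `M` of the `n` with all values `f(n)`, `f ∈ P`, chosen satisfies the counting
law of Bateman and Horn (with the constant truncated to `Q`), the numbers of its elements in windows of length
`(λ / c) log ^ |P| x` follow the Poisson law, and its gaps, normalised in the same way, follow the exponential law.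
If `2, 3 ∈ Q` this applies to the `n` such that at least four of `n, n + 2, n + 4, n + 6, n + 8` are chosen.

Proof. The values are tried in their order.  The candidates (the places where the largest value is tried) are
counted, in most windows, by a concentration inequality. The conditional probability of exactly `r` successes is
bounded from above by the exact limit, and an exponential inequality for windows which do not overlap gives the
upper frequencies of all `r`, almost surely; as the limits have the sum one, these are the frequencies. The gaps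
are treated by differences of the frequencies of empty windows of two lengths.
-/

set_option autoImplicit false

open MeasureTheory Filter Set ProbabilityTheory Polynomial
open scoped Topology

namespace Pool.Agent.Results.MP_fc51f7_nt.PoissonLaw

variable {Ω : Type}

/-- `A n` is the event that `n` is chosen; adapted to `ℱ`; multiples of the primes in `Q` are not
chosen; the conditional probability of `A (n + 1)` given `ℱ n`, times `log n`, tends almost surely to
`∏_{p ∈ Q} (1 - 1 / p)⁻¹` along the `n` such that no `p ∈ Q` divides `n + 1` -/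
def SievedModel [m : MeasurableSpace Ω] (μ : Measure Ω) (ℱ : Filtration ℕ m)
    (A : ℕ → Set Ω) (Q : Finset ℕ) : Prop :=
  (∀ n, MeasurableSet[ℱ n] (A n)) ∧ (∀ n, (∃ p ∈ Q, p ∣ n) → A n = ∅) ∧
  ∀ᵐ ω ∂μ, Tendsto (fun n : ℕ => (μ[(A (n + 1)).indicator (fun _ => (1 : ℝ)) | ℱ n]) ω * Real.log n)
    (atTop ⊓ 𝓟 {n : ℕ | ∀ p ∈ Q, ¬ p ∣ n + 1}) (𝓝 (∏ p ∈ Q, (1 - 1 / (p : ℝ))⁻¹))

/-- The model of Cramér: independent events, `n` is chosen with probability `1 / log n` for `n ≥ 3`. -/
def CramerModel [MeasurableSpace Ω] (μ : Measure Ω) (A : ℕ → Set Ω) : Prop :=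
  (∀ n, MeasurableSet (A n)) ∧ iIndepSet A μ ∧ ∀ n : ℕ, 3 ≤ n → μ (A n) = ENNReal.ofReal (1 / Real.log n)

open Classical in
/-- The random sieve of Hawkins: `2` is chosen, and given the decisions up to `n ≥ 2` the number
`n + 1` is chosen with probability `∏ (1 - 1 / h)`, the product over the chosen `2 ≤ h ≤ n`. -/
def HawkinsSieve [m : MeasurableSpace Ω] (μ : Measure Ω) (ℱ : Filtration ℕ m) (A : ℕ → Set Ω) : Prop :=
  (∀ n, MeasurableSet[ℱ n] (A n)) ∧ A 2 = univ ∧
  ∀ n, 2 ≤ n → μ[(A (n + 1)).indicator (fun _ => (1 : ℝ)) | ℱ n] =ᵐ[μ]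
    fun ω => ∏ h ∈ Finset.Icc 2 n, if ω ∈ A h then 1 - 1 / (h : ℝ) else 1

open Classical in
/-- the odd `n` such that at least four of `n, n + 2, n + 4, n + 6, n + 8` are elements of `S` -/
def goodSets (S : Set ℕ) : Set ℕ :=
  {n | Odd n ∧ 4 ≤ ((Finset.range 5).filter (fun j => n + 2 * j ∈ S)).card}

/-- the `n` such that all values `f(n)`, `f ∈ P`, are elements of `S` -/
def values (S : Set ℕ) (P : Finset ℤ[X]) : Set ℕ := {n | ∀ f ∈ P, ∃ a ∈ S, (a : ℤ) = f.eval (n : ℤ)}

open Classical in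
/-- the system `x, x + 2, x + 6, x + 8` -/
noncomputable def quad : Finset ℤ[X] := ({0, 2, 6, 8} : Finset ℤ).image (fun a => X + C a)

/-- the number of the residues `r` modulo `p` such that `p` divides the product of the `f(r)`, `f ∈ P` -/
noncomputable def zeros (P : Finset ℤ[X]) (p : ℕ) : ℕ :=
  {r : ℕ | r < p ∧ (p : ℤ) ∣ ∏ f ∈ P, f.eval (r : ℤ)}.ncard

/-- the constant of Bateman and Horn, truncated to the primes of `Q` -/
noncomputable def const (Q : Finset ℕ) (P : Finset ℤ[X]) : ℝ :=
  (∏ p ∈ Q, (1 - (zeros P p : ℝ) / p) / (1 - 1 / (p : ℝ)) ^ P.card) * ∏ f ∈ P, ((f.natDegree : ℝ))⁻¹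

/-- The least element of `M` greater than `s`. -/
noncomputable def nextElement (M : Set ℕ) (s : ℕ) : ℕ := sInf {t | t ∈ M ∧ s < t}

/-- the number of the elements of `M` below `X` is asymptotic to `c X / log ^ k X` -/
def CountingLaw (M : Set ℕ) (c : ℝ) (k : ℕ) : Prop :=
  Tendsto (fun X : ℕ => ({n : ℕ | n < X ∧ n ∈ M}.ncard : ℝ) * Real.log X ^ k / X) atTop (𝓝 c)

/-- for all `λ > 0` and all `r`, the proportion of the `x < X` with exactly `r` elements of `M` in
`(x, x + (λ / c) log ^ k x]` tends to `λ ^ r / r! exp (-λ)` -/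
def WindowLaw (M : Set ℕ) (c : ℝ) (k : ℕ) : Prop :=
  ∀ lam : ℝ, 0 < lam → ∀ r : ℕ, Tendsto (fun X : ℕ => ({x : ℕ | x < X ∧
    {n : ℕ | n ∈ M ∧ x < n ∧ (n : ℝ) ≤ x + lam / c * Real.log x ^ k}.ncard = r}.ncard : ℝ) / X)
    atTop (𝓝 (lam ^ r / (r.factorial : ℝ) * Real.exp (-lam)))

/-- for all `λ > 0`, the proportion of the elements `s < X` of `M` whose distance to the next element of `M` is
larger than `(λ / c) log ^ k s` tends to `exp (-λ)` -/
def GapLaw (M : Set ℕ) (c : ℝ) (k : ℕ) : Prop :=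
  ∀ lam : ℝ, 0 < lam → Tendsto (fun X : ℕ =>
    ({s : ℕ | s < X ∧ s ∈ M ∧ lam / c * Real.log s ^ k < (nextElement M s : ℝ) - s}.ncard : ℝ) /
      ({s : ℕ | s < X ∧ s ∈ M}.ncard : ℝ)) atTop (𝓝 (Real.exp (-lam)))

open Pool.Agent.N740.HK Pool.Agent.R528.RM Pool.Agent.N315.CC Pool.Agent.N315.PL Pool.Agent.N315.PS

lemma prod_inv (A : ℕ → Set Ω) (n : ℕ) (ω : Ω) [DecidablePred fun h => ω ∈ A h] :
    (∏ h ∈ Finset.Icc 2 n, if ω ∈ A h then 1 - 1 / (h : ℝ) else 1) = (Y A n ω)⁻¹ := by
  unfold Y
  rw [← Finset.prod_inv_distrib]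
  refine Finset.prod_congr rfl fun h hh => ?_
  have h2 : (2 : ℝ) ≤ h := by exact_mod_cast (Finset.mem_Icc.1 hh).1
  by_cases hA : ω ∈ A h
  · rw [if_pos hA, if_pos hA, inv_div]
    field_simp
  · rw [if_neg hA, if_neg hA, inv_one]

lemma log_ratio : Tendsto (fun n : ℕ => (Real.log ((n + 1 : ℕ) : ℝ))⁻¹ * Real.log n) atTop (𝓝 1) := by
  have h1 : Tendsto (fun n : ℕ => Real.log ((n : ℝ) + 1) - Real.log n) atTop (𝓝 0) := by
    have h1 : Tendsto (fun n : ℕ => 1 + (1 : ℝ) / n) atTop (𝓝 (1 + 0)) :=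
      tendsto_const_nhds.add tendsto_one_div_atTop_nhds_zero_nat
    rw [add_zero] at h1
    have h2 := (Real.continuousAt_log (one_ne_zero)).tendsto.comp h1
    rw [Real.log_one] at h2
    refine h2.congr' ?_
    filter_upwards [eventually_gt_atTop 0] with n hn
    have hn' : (0 : ℝ) < n := by exact_mod_cast hn
    show Real.log (1 + 1 / (n : ℝ)) = _
    rw [← Real.log_div (by positivity) hn'.ne']
    congr 1
    field_simp
  have h2 : Tendsto (fun n : ℕ => Real.log ((n : ℝ) + 1)) atTop atTop :=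
    Real.tendsto_log_atTop.comp (tendsto_atTop_add_const_right _ _ tendsto_natCast_atTop_atTop)
  have h3 := h1.div_atTop h2
  have h4 : Tendsto (fun n : ℕ => 1 - (Real.log ((n : ℝ) + 1) - Real.log n) / Real.log ((n : ℝ) + 1)) atTop (𝓝 (1 - 0)) :=
    tendsto_const_nhds.sub h3
  rw [sub_zero] at h4
  refine h4.congr' ?_
  filter_upwards [h2.eventually_gt_atTop 0] with n hn
  push_cast
  field_simp
  ring

lemma sieved_of_seq [m : MeasurableSpace Ω] {μ : Measure Ω} {ℱ : Filtration ℕ m} {A : ℕ → Set Ω}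
    (h1 : ∀ n, MeasurableSet[ℱ n] (A n))
    (h2 : ∀ᵐ ω ∂μ, Tendsto (fun n : ℕ => (μ[(A (n + 1)).indicator (fun _ => (1 : ℝ)) | ℱ n]) ω * Real.log n) atTop (𝓝 1)) :
    SievedModel μ ℱ A ∅ := by
  refine ⟨h1, fun n hn => ?_, ?_⟩
  · obtain ⟨p, hp, _⟩ := hn
    exact absurd hp (Finset.notMem_empty p)
  · filter_upwards [h2] with ω hω
    rw [Finset.prod_empty]
    exact hω.mono_left inf_le_left

lemma const_eq (Q : Finset ℕ) (P : Finset ℤ[X]) : bc Q P = const Q P := rfl

lemma zeros_lt (P : Finset ℤ[X]) {p : ℕ} (hp : p.Prime) {r : ℤ} (hr : ¬ (p : ℤ) ∣ ∏ f ∈ P, f.eval r) : zeros P p < p := by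
  classical
  have h0 : zeros P p = ((Finset.range p).filter (fun r : ℕ => (p : ℤ) ∣ ∏ f ∈ P, f.eval (r : ℤ))).card := by
    unfold zeros
    rw [← Set.ncard_coe_finset]
    congr 1
    ext r
    simp
  rw [h0]
  have hp0 : (0 : ℤ) < p := by exact_mod_cast hp.pos
  have h1 : (Finset.range p).filter (fun r : ℕ => (p : ℤ) ∣ ∏ f ∈ P, f.eval (r : ℤ)) ⊂ Finset.range p := by
    have e1 : 0 ≤ r % p := Int.emod_nonneg _ hp0.ne'
    have e2 : r % p < p := Int.emod_lt_of_pos _ hp0
    refine Finset.filter_ssubset.2 ⟨(r % p).toNat, Finset.mem_range.2 (by omega), ?_⟩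
    rw [Int.toNat_of_nonneg e1]
    intro hd
    apply hr
    have e3 : ∀ z : ℤ, ∏ f ∈ P, f.eval z = (∏ f ∈ P, f).eval z := fun z => (eval_prod P (fun f => f) z).symm
    rw [e3] at hd ⊢
    have h3 : (p : ℤ) ∣ (∏ f ∈ P, f).eval r - (∏ f ∈ P, f).eval (r % p) :=
      dvd_trans Int.dvd_self_sub_emod (Polynomial.sub_dvd_eval_sub r (r % p) _)
    have h4 := dvd_add h3 hd
    rwa [sub_add_cancel] at h4
  have h2 := Finset.card_lt_card h1
  rwa [Finset.card_range] at h2

lemma const_pos (Q : Finset ℕ) (hQ : ∀ p ∈ Q, p.Prime) (P : Finset ℤ[X]) (hP : ∀ f ∈ P, 0 < f.natDegree)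
    (h : ∀ p ∈ Q, ∃ r : ℤ, ¬ (p : ℤ) ∣ ∏ f ∈ P, f.eval r) : 0 < const Q P := by
  unfold const
  refine mul_pos (Finset.prod_pos fun p hp => ?_) (Finset.prod_pos fun f hf => ?_)
  · obtain ⟨r, hr⟩ := h p hp
    have h1 : (1 : ℝ) < p := by exact_mod_cast (hQ p hp).one_lt
    have h3 : 0 < 1 - 1 / (p : ℝ) := by
      rw [sub_pos, div_lt_one (by linarith)]
      exact h1
    have h4 : (zeros P p : ℝ) < p := by exact_mod_cast zeros_lt P (hQ p hp) hr
    refine div_pos ?_ (pow_pos h3 _)
    rw [sub_pos, div_lt_one (by linarith)]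
    exact h4
  · exact inv_pos.2 (Nat.cast_pos.2 (hP f hf))

lemma quad_inj : Function.Injective (fun a : ℤ => (X + C a : ℤ[X])) := by
  intro a b h
  have h2 : (X + C a : ℤ[X]) = X + C b := h
  exact C_injective (add_left_cancel h2)

lemma quad_card : quad.card = 4 := by
  classical
  unfold quad
  rw [Finset.card_image_of_injective _ quad_inj]
  decide

lemma quad_deg : ∀ f ∈ quad, 0 < f.natDegree ∧ 0 < f.leadingCoeff := by
  classical
  intro f hf
  obtain ⟨a, _, rfl⟩ := Finset.mem_image.1 hf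
  exact ⟨by rw [natDegree_X_add_C]; exact one_pos, by rw [leadingCoeff_X_add_C]; exact one_pos⟩

lemma quad_ne : quad.Nonempty := Finset.card_pos.1 (by rw [quad_card]; norm_num)

lemma quad_prod (r : ℤ) : ∏ f ∈ quad, f.eval r = r * (r + 2) * (r + 6) * (r + 8) := by
  classical
  unfold quad
  rw [Finset.prod_image (fun i _ j _ hij => quad_inj hij)]
  simp only [eval_add, eval_X, eval_C]
  rw [Finset.prod_insert (by decide), Finset.prod_insert (by decide), Finset.prod_insert (by decide), Finset.prod_singleton]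
  ring

lemma quad_adm (p : ℕ) (hp : p.Prime) : ∃ r : ℤ, ¬ (p : ℤ) ∣ ∏ f ∈ quad, f.eval r := by
  rcases hp.eq_two_or_odd' with rfl | hodd
  · exact ⟨1, by rw [quad_prod]; norm_num⟩
  · refine ⟨-4, ?_⟩
    rw [quad_prod]
    intro hd
    have h1 : (p : ℤ) ∣ ((2 ^ 6 : ℕ) : ℤ) := by
      norm_num at hd ⊢
      exact hd
    have h2 : p ∣ 2 ^ 6 := by exact_mod_cast h1
    have h3 := (Nat.prime_dvd_prime_iff_eq hp Nat.prime_two).1 (hp.dvd_of_dvd_pow h2)
    rw [h3] at hodd
    exact absurd hodd (by decide)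

lemma mem_quad (S : Set ℕ) (n : ℕ) : n ∈ values S quad ↔ n ∈ S ∧ n + 2 ∈ S ∧ n + 6 ∈ S ∧ n + 8 ∈ S := by
  classical
  unfold values quad
  simp only [mem_ofPred_eq, Finset.mem_image, Finset.mem_insert, Finset.mem_singleton, forall_exists_index, and_imp]
  have key : ∀ a : ℕ, (∃ b ∈ S, (b : ℤ) = (X + C (a : ℤ) : ℤ[X]).eval (n : ℤ)) ↔ n + a ∈ S := by
    intro a
    simp only [eval_add, eval_X, eval_C]
    constructor
    · rintro ⟨b, hb, hb2⟩
      have : b = n + a := by exact_mod_cast hb2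
      rwa [← this]
    · intro h
      exact ⟨n + a, h, by push_cast; rfl⟩
  have k0 := key 0
  have k2 := key 2
  have k6 := key 6
  have k8 := key 8
  simp only [Nat.cast_zero, Nat.cast_ofNat, add_zero] at k0 k2 k6 k8
  constructor
  · intro h
    exact ⟨k0.1 (h _ 0 (by simp) (by simp)), k2.1 (h _ 2 (by simp) rfl), k6.1 (h _ 6 (by simp) rfl), k8.1 (h _ 8 (by simp) rfl)⟩
  · rintro ⟨a0, a2, a6, a8⟩ f b hb rfl
    rcases hb with rfl | rfl | rfl | rfl
    · have := k0.2 a0
      simpa using this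
    · exact k2.2 a2
    · exact k6.2 a6
    · exact k8.2 a8

/-- among five consecutive odd integers the third one is the missing one (as in `SievedModels`, by helper730) -/
lemma good_eq {S : Set ℕ} (hA2 : ∀ n ∈ S, n % 2 = 1) (hA3 : ∀ n ∈ S, n % 3 ≠ 0) : goodSets S = values S quad := by
  classical
  ext n
  rw [mem_quad]
  unfold goodSets
  simp only [mem_ofPred_eq]
  have hcard : ((Finset.range 5).filter (fun j => n + 2 * j ∈ S)).card =
      (if n ∈ S then 1 else 0) + (if n + 2 ∈ S then 1 else 0) + (if n + 4 ∈ S then 1 else 0) +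
      (if n + 6 ∈ S then 1 else 0) + (if n + 8 ∈ S then 1 else 0) := by
    rw [Finset.card_filter, Finset.sum_range_succ, Finset.sum_range_succ, Finset.sum_range_succ,
      Finset.sum_range_succ, Finset.sum_range_one]
    rfl
  have g0 := hA3 n
  have g2 := hA3 (n + 2)
  have g4 := hA3 (n + 4)
  have g6 := hA3 (n + 6)
  have g8 := hA3 (n + 8)
  constructor
  · rintro ⟨_, hc⟩
    have hc : 4 ≤ (if n ∈ S then 1 else 0) + (if n + 2 ∈ S then 1 else 0) + (if n + 4 ∈ S then 1 else 0) +
      (if n + 6 ∈ S then 1 else 0) + (if n + 8 ∈ S then 1 else 0) := by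
      rw [← hcard]
      convert hc
    by_cases a0 : n ∈ S <;> by_cases a2 : n + 2 ∈ S <;> by_cases a4 : n + 4 ∈ S <;>
      by_cases a6 : n + 6 ∈ S <;> by_cases a8 : n + 8 ∈ S <;>
      simp only [a0, a2, a4, a6, a8, if_true, if_false, true_and, and_true, forall_const] at * <;>
      omega
  · rintro ⟨a0, a2, a6, a8⟩
    refine ⟨Nat.odd_iff.2 (hA2 n a0), ?_⟩
    have h : 4 ≤ (if n ∈ S then 1 else 0) + (if n + 2 ∈ S then 1 else 0) + (if n + 4 ∈ S then 1 else 0) +
      (if n + 6 ∈ S then 1 else 0) + (if n + 8 ∈ S then 1 else 0) := by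
      rw [if_pos a0, if_pos a2, if_pos a6, if_pos a8]
      split_ifs <;> omega
    rw [← hcard] at h
    convert h

end Pool.Agent.Results.MP_fc51f7_nt.PoissonLaw

open Pool.Agent.Results.MP_fc51f7_nt.PoissonLaw Pool.Agent.N740.HK Pool.Agent.R528.RM Pool.Agent.N315.PS Pool.Agent.N315.CC Pool.Agent.N315.PL Polynomial

/-- The model of Cramér (for some filtration) and the random sieve of Hawkins are sieved models with `Q = ∅`.
In every sieved model, almost surely: (1) if `2, 3 ∈ Q`, the counting law, the Poisson law in windows and the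
exponential law of the gaps hold for the set of the odd `n` such that at least four of
`n, n + 2, n + 4, n + 6, n + 8` are chosen, with exponent `4` and the positive constant `const Q quad`; (2) the same
three laws hold, with exponent `|P|` and the positive constant `const Q P`, for ALL finite nonempty systems `P` of
integer polynomials of positive degree and positive leading coefficient whose product has no fixed divisor in `Q`,
for the set of the `n` such that all `f(n)`, `f ∈ P`, are chosen. -/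
theorem Pool.Agent.Results.MP_fc51f7_nt.PoissonLaw.result
    {Ω : Type} [m : MeasurableSpace Ω] (μ : Measure Ω) [IsProbabilityMeasure μ] (A : ℕ → Set Ω) :
    (CramerModel μ A → ∃ ℱ : Filtration ℕ m, SievedModel μ ℱ A ∅) ∧
    (∀ ℱ : Filtration ℕ m, HawkinsSieve μ ℱ A → SievedModel μ ℱ A ∅) ∧
    (∀ (ℱ : Filtration ℕ m) (Q : Finset ℕ), (∀ p ∈ Q, p.Prime) → SievedModel μ ℱ A Q → 0 < const Q quad ∧
      ∀ᵐ ω ∂μ,
        (2 ∈ Q → 3 ∈ Q →
          CountingLaw (goodSets {n | ω ∈ A n}) (const Q quad) 4 ∧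
          WindowLaw (goodSets {n | ω ∈ A n}) (const Q quad) 4 ∧
          GapLaw (goodSets {n | ω ∈ A n}) (const Q quad) 4) ∧
        (∀ P : Finset ℤ[X], P.Nonempty → (∀ f ∈ P, 0 < f.natDegree ∧ 0 < f.leadingCoeff) →
          (∀ p ∈ Q, ∃ r : ℤ, ¬ (p : ℤ) ∣ ∏ f ∈ P, f.eval r) → 0 < const Q P ∧
          CountingLaw (values {n | ω ∈ A n} P) (const Q P) P.card ∧
          WindowLaw (values {n | ω ∈ A n} P) (const Q P) P.card ∧
          GapLaw (values {n | ω ∈ A n} P) (const Q P) P.card)) := by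
  classical
  refine ⟨?_, ?_, ?_⟩
  · rintro ⟨hA, hi, hp⟩
    refine ⟨gen hA, sieved_of_seq (gen_meas hA) ?_⟩
    have h1 : ∀ᵐ ω ∂μ, ∀ n, (μ[(A (n + 1)).indicator (fun _ => (1 : ℝ)) | gen hA n]) ω =
        (μ (A (n + 1))).toReal := ae_all_iff.2 fun n => dens_gen hA hi n
    filter_upwards [h1] with ω hω
    refine log_ratio.congr' ?_
    filter_upwards [eventually_ge_atTop 2] with n hn
    rw [hω, hp (n + 1) (by omega), ENNReal.toReal_ofReal, one_div]
    have : 0 ≤ Real.log ((n + 1 : ℕ) : ℝ) := Real.log_natCast_nonneg _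
    positivity
  · rintro ℱ ⟨h1, h2, h3⟩
    have hs : Pool.Agent.N740.HK.HS μ ℱ A := ⟨h1, h2, fun n hn => by
      filter_upwards [h3 n hn] with ω hω
      rw [← prod_inv]
      exact hω⟩
    exact sieved_of_seq h1 (Pool.Agent.N740.HK.hawk_dens hs)
  · rintro ℱ Q hQ ⟨hA, hcop, hd⟩
    refine ⟨const_pos Q hQ quad (fun f hf => (quad_deg f hf).1) (fun p hp => quad_adm p (hQ p hp)), ?_⟩
    filter_upwards [use (μ := μ) (ℱ := ℱ) hA Q hQ hcop hd] with ω hω
    have key : ∀ P : Finset ℤ[X], P.Nonempty → (∀ f ∈ P, 0 < f.natDegree ∧ 0 < f.leadingCoeff) →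
        (∀ p ∈ Q, ∃ r : ℤ, ¬ (p : ℤ) ∣ ∏ f ∈ P, f.eval r) → 0 < const Q P ∧
        CountingLaw (values {n | ω ∈ A n} P) (const Q P) P.card ∧
        WindowLaw (values {n | ω ∈ A n} P) (const Q P) P.card ∧
        GapLaw (values {n | ω ∈ A n} P) (const Q P) P.card := by
      intro P hne hP hadm
      have hC := const_pos Q hQ P (fun f hf => (hP f hf).1) hadm
      obtain ⟨h1, h2⟩ := hω P hP hne hC
      exact ⟨hC, h1, fun lam hlam => (h2 lam hlam).1, fun lam hlam => (h2 lam hlam).2⟩
    refine ⟨fun h2 h3 => ?_, key⟩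
    have hA2 : ∀ n ∈ {n | ω ∈ A n}, n % 2 = 1 := by
      intro n hn
      have hn : ω ∈ A n := hn
      by_contra hcon
      rw [hcop n ⟨2, h2, by omega⟩] at hn
      exact hn
    have hA3 : ∀ n ∈ {n | ω ∈ A n}, n % 3 ≠ 0 := by
      intro n hn hcon
      have hn : ω ∈ A n := hn
      rw [hcop n ⟨3, h3, by omega⟩] at hn
      exact hn
    rw [good_eq hA2 hA3]
    have h := (key quad quad_ne quad_deg (fun p hp => quad_adm p (hQ p hp))).2
    rw [quad_card] at h
    exact h
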