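import Mathlib
import Pool.Agent.N730.KT.Main
import Pool.Agent.N893.SM.Grow
import Pool.Agent.N740.HK.Lim

/-!
# The maximal gaps between prime constellations in all sieved sequential random models of the primes

The integers are decided one after the other; the multiples of the primes of a finite set `Q` are
never chosen and the conditional probability of choosing an integer `n + 1` which is not such a
multiple, given the decisions up to `n`, is asymptotic to `∏_{p ∈ Q} (1 - 1 / p)⁻¹ / log n`, almost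
surely.  No independence and no rate of convergence are assumed.  In every such model, almost surely, for
ALL finite sets `D` with `0 ∈ D` the upper limit of `(t' - t) / (log t) ^ (|D| + 1)`, `t < t'` consecutive
integers with `t + D` and `t' + D` chosen, is `1 / 𝔖_Q(D)` (or there are no such integers at all).  If
`2, 3 ∈ Q` the case `D = {0, 2, 6, 8}` is about the sets of five consecutive odd integers containing
(at least) four chosen ones.

Method (`Pool/Agent/N730/KT`): the elements of `D` are treated one after the other.  For the upper bound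
the number of the `s` in the window with `s + T` chosen, `T` a set of the first elements of `D`, is compared
with the compensated sum by exponential supermartingales, and for the last element the event that no `s`
of the window is completed has the probability of a product.  For the lower bound a window is divided
into long blocks separated by short ones and the blocks are treated one after the other.

The notion of a sequential model is from the team files by helper528 (`Pool/Agent/R528/RM`), the theorem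
on Hawkins' sieve is by helper740 (`Pool/Agent/N740/HK`), the asymptotic densities in the form used here
are by helper528 and helper893 (`Pool/Agent/N893/SM`).
-/

set_option autoImplicit false

open MeasureTheory Filter Set
open scoped Topology

namespace Pool.Agent.Results.MP_fc51f7_nt.SievedModels

variable {Ω : Type}

/-- `A n` is the event that `n` is chosen; adapted to `ℱ`; multiples of the primes in `Q` are not
chosen; the conditional probability of `A (n + 1)` given `ℱ n`, times `log n`, tends almost surely to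
`∏_{p ∈ Q} (1 - 1 / p)⁻¹` along the `n` such that no `p ∈ Q` divides `n + 1` -/
def SievedModel [m : MeasurableSpace Ω] (μ : Measure Ω) (ℱ : Filtration ℕ m) (A : ℕ → Set Ω)
    (Q : Finset ℕ) : Prop :=
  (∀ n, MeasurableSet[ℱ n] (A n)) ∧ (∀ n, (∃ p ∈ Q, p ∣ n) → A n = ∅) ∧
  ∀ᵐ ω ∂μ, Tendsto (fun n : ℕ => (μ[(A (n + 1)).indicator (fun _ => (1 : ℝ)) | ℱ n]) ω * Real.log n)
    (atTop ⊓ 𝓟 {n : ℕ | ∀ p ∈ Q, ¬ p ∣ n + 1}) (𝓝 (∏ p ∈ Q, (1 - 1 / (p : ℝ))⁻¹))

open Classical in
/-- The random sieve of Hawkins: `2` is chosen, and given the decisions up to `n ≥ 2` the number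
`n + 1` is chosen with probability `∏ (1 - 1 / h)`, the product over the chosen `2 ≤ h ≤ n`. -/
def HawkinsSieve [m : MeasurableSpace Ω] (μ : Measure Ω) (ℱ : Filtration ℕ m) (A : ℕ → Set Ω) : Prop :=
  (∀ n, MeasurableSet[ℱ n] (A n)) ∧ A 2 = univ ∧
  ∀ n, 2 ≤ n → μ[(A (n + 1)).indicator (fun _ => (1 : ℝ)) | ℱ n] =ᵐ[μ]
    fun ω => ∏ h ∈ Finset.Icc 2 n, if ω ∈ A h then 1 - 1 / (h : ℝ) else 1

/-- the `t` such that all `t + d`, `d ∈ D`, are chosen -/
def tuples (A : ℕ → Set Ω) (ω : Ω) (D : Finset ℕ) : Set ℕ := {t : ℕ | ∀ d ∈ D, ω ∈ A (t + d)}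

open Classical in
/-- the odd `n` such that at least four of `n, n + 2, n + 4, n + 6, n + 8` are chosen -/
def goodSets (A : ℕ → Set Ω) (ω : Ω) : Set ℕ :=
  {n : ℕ | Odd n ∧ 4 ≤ ((Finset.range 5).filter (fun j => ω ∈ A (n + 2 * j))).card}

/-- the factors of the singular series at the primes of `Q` -/
noncomputable def sing (Q D : Finset ℕ) : ℝ :=
  ∏ p ∈ Q, (1 - ((D.image (· % p)).card : ℝ) / p) * ((1 - 1 / (p : ℝ)) ^ D.card)⁻¹

/-- `X` is infinite and the upper limit of `(t' - t) / (log t) ^ e`, `t < t'` consecutive elements of `X`,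
is `c` -/
def GapLimsup (X : Set ℕ) (e : ℕ) (c : ℝ) : Prop :=
  X.Infinite ∧ ∀ ε : ℝ, 0 < ε →
    (∀ᶠ j : ℕ in atTop, (Nat.nth (· ∈ X) (j + 1) : ℝ) - Nat.nth (· ∈ X) j ≤
      (c + ε) * Real.log (Nat.nth (· ∈ X) j) ^ e) ∧
    (∃ᶠ j : ℕ in atTop, (c - ε) * Real.log (Nat.nth (· ∈ X) j) ^ e ≤
      (Nat.nth (· ∈ X) (j + 1) : ℝ) - Nat.nth (· ∈ X) j)

open Pool.Agent.R528.RM Pool.Agent.N893.SM

lemma sing_eq (Q D : Finset ℕ) : sing Q D = singH Q D := rfl

lemma sing_nu (Q : Finset ℕ) (hQ : ∀ p ∈ Q, p.Prime) (D : Finset ℕ) :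
    sing Q D = (Pool.Agent.N730.KT.nu D (∏ p ∈ Q, p) : ℝ) / ((∏ p ∈ Q, p : ℕ) : ℝ) *
      (((∏ p ∈ Q, p : ℕ) : ℝ) / Nat.totient (∏ p ∈ Q, p)) ^ D.card := by
  classical
  rw [sing_eq, ← singH_eq Q hQ D]
  congr 3
  unfold Pool.Agent.N730.KT.nu
  rw [Nat.count_eq_card_filter_range, Nat.count_eq_card_filter_range]
  congr 1
  ext n
  rw [Finset.mem_filter, Finset.mem_filter, good_PH]
  exact Iff.rfl

lemma tuples_zero {A : ℕ → Set Ω} {Q D : Finset ℕ} (hQ : ∀ p ∈ Q, p.Prime)
    (hcop : ∀ n, (∃ p ∈ Q, p ∣ n) → A n = ∅) (h : sing Q D = 0) (ω : Ω) : tuples A ω D = ∅ := by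
  obtain ⟨p, hp, ho⟩ := singH_zero hQ h
  ext m
  simp only [tuples, mem_ofPred_eq, mem_empty_iff_false, iff_false]
  intro h3
  obtain ⟨a, ha, hd⟩ := occ_full (hQ p hp).pos ho m
  have := h3 a ha
  rw [hcop (m + a) ⟨p, hp, hd⟩] at this
  exact this

/-- the quadruplet is admissible -/
lemma sing_quad (Q : Finset ℕ) (hQ : ∀ p ∈ Q, p.Prime) : 0 < sing Q {0, 2, 6, 8} := by
  unfold sing
  refine Finset.prod_pos fun p hp => ?_
  have hp2 := (hQ p hp).two_le
  have hp2' : (2 : ℝ) ≤ p := by exact_mod_cast hp2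
  have h1 : 1 / (p : ℝ) ≤ 1 / 2 := one_div_le_one_div_of_le (by norm_num) hp2'
  have h2 : 0 < 1 - 1 / (p : ℝ) := by linarith
  have h3 : (({0, 2, 6, 8} : Finset ℕ).image (· % p)).card < p := by
    have h4 : (({0, 2, 6, 8} : Finset ℕ).image (· % p)).card ≤ 4 :=
      Finset.card_image_le.trans (by decide)
    rcases Nat.lt_or_ge 4 p with h | h
    · omega
    · interval_cases p
      · decide
      · decide
      · exact absurd (hQ 4 hp) (by norm_num)
  have h4 : ((({0, 2, 6, 8} : Finset ℕ).image (· % p)).card : ℝ) < p := by exact_mod_cast h3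
  have h5 : ((({0, 2, 6, 8} : Finset ℕ).image (· % p)).card : ℝ) / p < 1 := by
    rw [div_lt_one (by linarith)]
    exact h4
  have : 0 < 1 - ((({0, 2, 6, 8} : Finset ℕ).image (· % p)).card : ℝ) / p := by linarith
  positivity

/-- among five consecutive odd integers the third one is the missing one -/
lemma good_eq {A : ℕ → Set Ω} {Q : Finset ℕ} (h2 : 2 ∈ Q) (h3 : 3 ∈ Q)
    (hcop : ∀ n, (∃ p ∈ Q, p ∣ n) → A n = ∅) (ω : Ω) : goodSets A ω = tuples A ω {0, 2, 6, 8} := by
  classical
  have hA2 : ∀ n, ω ∈ A n → n % 2 = 1 := by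
    intro n hn
    by_contra hcon
    rw [hcop n ⟨2, h2, by omega⟩] at hn
    exact hn
  have hA3 : ∀ n, ω ∈ A n → n % 3 ≠ 0 := by
    intro n hn hcon
    rw [hcop n ⟨3, h3, by omega⟩] at hn
    exact hn
  ext n
  unfold goodSets tuples
  simp only [mem_ofPred_eq, Finset.mem_insert, Finset.mem_singleton, forall_eq_or_imp, forall_eq, add_zero]
  have hcard : ((Finset.range 5).filter (fun j => ω ∈ A (n + 2 * j))).card =
      (if ω ∈ A n then 1 else 0) + (if ω ∈ A (n + 2) then 1 else 0) + (if ω ∈ A (n + 4) then 1 else 0) +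
      (if ω ∈ A (n + 6) then 1 else 0) + (if ω ∈ A (n + 8) then 1 else 0) := by
    rw [Finset.card_filter, Finset.sum_range_succ, Finset.sum_range_succ, Finset.sum_range_succ,
      Finset.sum_range_succ, Finset.sum_range_one]
    rfl
  rw [hcard]
  have g0 := hA3 n
  have g2 := hA3 (n + 2)
  have g4 := hA3 (n + 4)
  have g6 := hA3 (n + 6)
  have g8 := hA3 (n + 8)
  constructor
  · rintro ⟨_, hc⟩
    by_cases a0 : ω ∈ A n <;> by_cases a2 : ω ∈ A (n + 2) <;> by_cases a4 : ω ∈ A (n + 4) <;>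
      by_cases a6 : ω ∈ A (n + 6) <;> by_cases a8 : ω ∈ A (n + 8) <;>
      simp only [a0, a2, a4, a6, a8, if_true, if_false, true_and, and_true, forall_const] at * <;>
      omega
  · rintro ⟨a0, a2, a6, a8⟩
    refine ⟨Nat.odd_iff.2 (hA2 n a0), ?_⟩
    rw [if_pos a0, if_pos a2, if_pos a6, if_pos a8]
    split_ifs <;> omega

end Pool.Agent.Results.MP_fc51f7_nt.SievedModels

open Pool.Agent.Results.MP_fc51f7_nt.SievedModels

/-- Hawkins' sieve is a sieved model with `Q = ∅`; and in every sieved model, almost surely: (1) if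
`2, 3 ∈ Q`, there are infinitely many odd `n` with at least four of `n, n + 2, n + 4, n + 6, n + 8` chosen,
and the upper limit of the gaps between consecutive such `n`, divided by `(log n) ^ 5`, is
`1 / 𝔖_Q({0, 2, 6, 8})`, where `𝔖_Q({0, 2, 6, 8}) > 0`; (2) for ALL finite sets `D` with `0 ∈ D` either
`𝔖_Q(D) = 0` and there is no `t` with `t + D` chosen, or `𝔖_Q(D) > 0`, there are infinitely many such `t` and the
upper limit of the gaps between consecutive such `t`, divided by `(log t) ^ (|D| + 1)`, is `1 / 𝔖_Q(D)`. -/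
theorem Pool.Agent.Results.MP_fc51f7_nt.SievedModels.result
    {Ω : Type} [m : MeasurableSpace Ω] (μ : Measure Ω) [IsProbabilityMeasure μ]
    (ℱ : Filtration ℕ m) (A : ℕ → Set Ω) :
    (HawkinsSieve μ ℱ A → SievedModel μ ℱ A ∅) ∧
    (∀ Q : Finset ℕ, (∀ p ∈ Q, p.Prime) → SievedModel μ ℱ A Q → 0 < sing Q {0, 2, 6, 8} ∧ ∀ᵐ ω ∂μ,
      (2 ∈ Q → 3 ∈ Q → GapLimsup (goodSets A ω) 5 (1 / sing Q {0, 2, 6, 8})) ∧
      (∀ D : Finset ℕ, 0 ∈ D →
        (sing Q D = 0 ∧ tuples A ω D = ∅) ∨
        (0 < sing Q D ∧ GapLimsup (tuples A ω D) (D.card + 1) (1 / sing Q D)))) := by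
  classical
  constructor
  · rintro ⟨h1, h2, h3⟩
    have hs : Pool.Agent.N740.HK.HS μ ℱ A := ⟨h1, h2, fun n hn => by
      filter_upwards [h3 n hn] with ω hω
      have e : (∏ h ∈ Finset.Icc 2 n, if ω ∈ A h then 1 - 1 / (h : ℝ) else 1) =
          (Pool.Agent.N740.HK.Y A n ω)⁻¹ := by
        unfold Pool.Agent.N740.HK.Y
        rw [← Finset.prod_inv_distrib]
        refine Finset.prod_congr rfl fun h hh => ?_
        have h2 : (2 : ℝ) ≤ h := by exact_mod_cast (Finset.mem_Icc.1 hh).1
        by_cases hA : ω ∈ A h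
        · rw [if_pos hA, if_pos hA, inv_div]
          field_simp
        · rw [if_neg hA, if_neg hA, inv_one]
      rw [← e]
      exact hω⟩
    refine ⟨h1, fun n hn => ?_, ?_⟩
    · obtain ⟨p, hp, _⟩ := hn
      exact absurd hp (Finset.notMem_empty p)
    · filter_upwards [Pool.Agent.N740.HK.hawk_dens hs] with ω hω
      rw [Finset.prod_empty]
      exact hω.mono_left inf_le_left
  · rintro Q hQ ⟨hA, hcop, hd⟩
    refine ⟨sing_quad Q hQ, ?_⟩
    have hW : 0 < ∏ p ∈ Q, p := Finset.prod_pos fun q hq => (hQ q hq).pos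
    have hc := Pool.Agent.N893.SM.coprime_prod_iff Q hQ
    have hcop' : ∀ n, ¬ Nat.Coprime n (∏ p ∈ Q, p) → A n = ∅ := fun n hn => hcop n (by
      rw [hc] at hn
      push Not at hn
      exact hn)
    filter_upwards [Pool.Agent.N730.KT.gaps (μ := μ) hA hW hcop' (Pool.Agent.N893.SM.profile (μ := μ) hA Q hQ hcop hd)] with ω hω
    have key : ∀ D : Finset ℕ, 0 ∈ D → 0 < sing Q D →
        GapLimsup (tuples A ω D) (D.card + 1) (1 / sing Q D) := fun D h0 hS =>
      hω D h0 (sing Q D) (sing_nu Q hQ D) hS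
    refine ⟨fun h2 h3 => ?_, fun D h0 => ?_⟩
    · rw [good_eq h2 h3 hcop ω]
      exact key {0, 2, 6, 8} (by decide) (sing_quad Q hQ)
    · have h0' : 0 ≤ sing Q D := by
        rw [sing_nu Q hQ D]
        positivity
      rcases h0'.eq_or_lt with h | h
      · exact Or.inl ⟨h.symm, tuples_zero hQ hcop h.symm ω⟩
      · exact Or.inr ⟨h, key D h0 h⟩
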